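import Mathlib

/-! Burkholder's function, dyadic martingale transforms and Khintchine's inequality. -/

namespace Pool.Agent.H.Haar

open Set

lemma conv_max {v : ℝ} {a a1 a2 : ℝ → ℝ} (hc : ContinuousOn a (Ici v))
    (hc1 : ContinuousOn a1 (Ici v))
    (h1 : ∀ u, v < u → HasDerivAt a (a1 u) u) (h2 : ∀ u, v < u → HasDerivAt a1 (a2 u) u)
    (p2 : ∀ u, v < u → 0 ≤ a2 u) (p1 : 0 ≤ a1 v) : ConvexOn ℝ univ fun u => a (max u v) := by
  have m1 : MonotoneOn a1 (Ici v) := monotoneOn_of_deriv_nonneg (convex_Ici v) hc1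
    (fun u hu => (h2 u (by simpa using hu)).differentiableAt.differentiableWithinAt)
    (fun u hu => by rw [(h2 u (by simpa using hu)).deriv]; exact p2 u (by simpa using hu))
  have d : DifferentiableOn ℝ a (interior (Ici v)) :=
    fun u hu => (h1 u (by simpa using hu)).differentiableAt.differentiableWithinAt
  have cv : ConvexOn ℝ (Ici v) a := MonotoneOn.convexOn_of_deriv (convex_Ici v) hc d (by
    rw [interior_Ici]
    intro x hx y hy hxy
    rw [(h1 x hx).deriv, (h1 y hy).deriv]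
    exact m1 (mem_Ici.2 (le_of_lt hx)) (mem_Ici.2 (le_of_lt hy)) hxy)
  have mo : MonotoneOn a (Ici v) := monotoneOn_of_deriv_nonneg (convex_Ici v) hc d
    (fun u hu => by
      have hu' : v < u := by simpa using hu
      rw [(h1 u hu').deriv]
      exact p1.trans (m1 self_mem_Ici hu'.le hu'.le))
  have im : (fun u => max u v) '' univ = Ici v := by
    ext x
    simp only [image_univ, mem_range, mem_Ici]
    exact ⟨fun ⟨y, h⟩ => h ▸ le_max_right _ _, fun h => ⟨x, max_eq_left h⟩⟩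
  exact ConvexOn.comp (f := fun u => max u v) (im ▸ cv)
    ((convexOn_id convex_univ).sup (convexOn_const v convex_univ)) (im ▸ mo)

/-- Burkholder's function. -/
noncomputable def Bf (P x y : ℝ) : ℝ := (2 - P) * (((P - 1) * |y| - |x|) * (|x| + |y|) ^ (P - 1))

noncomputable def Aux (P v σ u : ℝ) : ℝ :=
  (2 - P) * (((P - 2) * v * v ^ (P - 1) + σ * P * v ^ (P - 1) * u) / 2 -
    ((P - 2) * u + σ * P * v) / 2 * u ^ (P - 1))

lemma aux_conv {P v σ : ℝ} (hP : 1 < P) (hv : 0 < v) (hσ : σ = 1 ∨ σ = -1) :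
    ConvexOn ℝ univ fun u => Aux P v σ (max u v) := by
  have cr : ∀ q : ℝ, ContinuousOn (fun u : ℝ => u ^ q) (Ici v) :=
    fun q => continuousOn_id.rpow_const fun x hx => .inl (hv.trans_le hx).ne'
  refine conv_max (a1 := fun u => (2 - P) * (σ * P * v ^ (P - 1) / 2 - ((P - 2) / 2 * u ^ (P - 1) +
      ((P - 2) * u + σ * P * v) / 2 * ((P - 1) * u ^ (P - 1 - 1)))))
    (a2 := fun u => (2 - P) ^ 2 * P * (P - 1) / 2 * u ^ (P - 1 - 1 - 1) * (u + σ * v)) ?_ ?_ ?_ ?_ ?_ ?_
  · unfold Aux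
    have := cr (P - 1)
    fun_prop
  · have := cr (P - 1)
    have := cr (P - 1 - 1)
    fun_prop
  · intro u hu
    have hu0 : u ≠ 0 := (hv.trans hu).ne'
    have d1 := Real.hasDerivAt_rpow_const (x := u) (p := P - 1) (.inl hu0)
    have := ((((hasDerivAt_id u).const_mul (σ * P * v ^ (P - 1))).const_add
      ((P - 2) * v * v ^ (P - 1))).div_const 2).sub
      (((((hasDerivAt_id u).const_mul (P - 2)).add_const (σ * P * v)).div_const 2).mul d1)
    refine (this.const_mul (2 - P)).congr_deriv ?_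
    simp only [id]; ring
  · intro u hu
    have hu0 : u ≠ 0 := (hv.trans hu).ne'
    have d1 := Real.hasDerivAt_rpow_const (x := u) (p := P - 1) (.inl hu0)
    have d2 := Real.hasDerivAt_rpow_const (x := u) (p := P - 1 - 1) (.inl hu0)
    have := ((d1.const_mul ((P - 2) / 2)).add
      (((((hasDerivAt_id u).const_mul (P - 2)).add_const (σ * P * v)).div_const 2).mul
        (d2.const_mul (P - 1)))).const_sub (σ * P * v ^ (P - 1) / 2)
    refine (this.const_mul (2 - P)).congr_deriv ?_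
    have e : u ^ (P - 1 - 1) = u ^ (P - 1 - 1 - 1) * u := by
      rw [Real.rpow_sub_one hu0 (P - 1 - 1)]; field_simp
    simp only [id, e]; ring
  · intro u hu
    have : 0 < u := hv.trans hu
    have : 0 ≤ u + σ * v := by rcases hσ with rfl | rfl <;> linarith
    have : 0 < P - 1 := by linarith
    positivity
  · have e : v ^ (P - 1) = v ^ (P - 1 - 1) * v := by
      rw [Real.rpow_sub_one hv.ne' (P - 1)]; field_simp
    have h : 0 ≤ (2 - P) ^ 2 * P * (v ^ (P - 1 - 1) * v) := by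
      have : 0 < P := by linarith
      positivity
    rw [e]
    rcases hσ with rfl | rfl
    · refine h.trans (le_of_eq ?_); ring
    · apply le_of_eq; ring

lemma bf_eq {P v : ℝ} (hv : 0 < v) (u : ℝ) : Bf P ((u - v) / 2) ((u + v) / 2) =
    (2 - P) * (((P - 2) * v * v ^ (P - 1) + P * v ^ (P - 1) * u) / 2) -
      Aux P v 1 (max u v) - Aux P v (-1) (max (-u) v) := by
  unfold Bf Aux
  rcases le_total v u with h | h
  · rw [max_eq_left h, max_eq_right (by linarith), abs_of_nonneg (by linarith),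
      abs_of_nonneg (by linarith), show (u - v) / 2 + (u + v) / 2 = u by ring]
    ring
  rcases le_total v (-u) with h' | h'
  · rw [max_eq_right h, max_eq_left h', abs_of_nonpos (by linarith),
      abs_of_nonpos (by linarith), show -((u - v) / 2) + -((u + v) / 2) = -u by ring]
    ring
  · rw [max_eq_right h, max_eq_right h', abs_of_nonneg (by linarith),
      abs_of_nonpos (by linarith), show -((u - v) / 2) + (u + v) / 2 = v by ring]
    ring

lemma mid {f : ℝ → ℝ} (hf : ConvexOn ℝ univ f) (u k : ℝ) : 2 * f u ≤ f (u + k) + f (u - k) := by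
  have := hf.2 (mem_univ (u + k)) (mem_univ (u - k)) (show (0 : ℝ) ≤ 1 / 2 by norm_num)
    (show (0 : ℝ) ≤ 1 / 2 by norm_num) (by norm_num)
  simp only [smul_eq_mul] at this
  rw [show 1 / 2 * (u + k) + 1 / 2 * (u - k) = u by ring] at this
  linarith

lemma zig0 {P : ℝ} (hP : 1 < P) {x y : ℝ} (h : x ≤ y) (k : ℝ) :
    Bf P (x + k) (y + k) + Bf P (x - k) (y - k) ≤ 2 * Bf P x y := by
  rcases h.lt_or_eq with h | rfl
  · have hv : 0 < y - x := by linarith
    have e1 := bf_eq (P := P) hv (x + y + 2 * k)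
    have e2 := bf_eq (P := P) hv (x + y - 2 * k)
    have e3 := bf_eq (P := P) hv (x + y)
    have m1 := mid (aux_conv hP hv (.inl rfl)) (x + y) (2 * k)
    have m2 := mid (aux_conv hP hv (.inr rfl)) (-(x + y)) (2 * k)
    rw [show (x + y + 2 * k - (y - x)) / 2 = x + k by ring,
      show (x + y + 2 * k + (y - x)) / 2 = y + k by ring,
      show -(x + y + 2 * k) = -(x + y) - 2 * k by ring] at e1
    rw [show (x + y - 2 * k - (y - x)) / 2 = x - k by ring,
      show (x + y - 2 * k + (y - x)) / 2 = y - k by ring,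
      show -(x + y - 2 * k) = -(x + y) + 2 * k by ring] at e2
    rw [show (x + y - (y - x)) / 2 = x by ring, show (x + y + (y - x)) / 2 = y by ring] at e3
    rw [e1, e2, e3]
    linarith
  · have e : ∀ t, Bf P t t = -((2 - P) ^ 2 * 2 ^ (P - 1)) * |t| ^ P := by
      intro t
      unfold Bf
      have sp : |t| ^ P = |t| * |t| ^ (P - 1) := by
        rw [← Real.rpow_one_add' (abs_nonneg t) (by linarith)]; congr 1; ring
      rw [← two_mul, Real.mul_rpow (by norm_num) (abs_nonneg _), sp]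
      ring
    have cv : ConvexOn ℝ univ fun t : ℝ => |t| ^ P := by
      have im : (fun t : ℝ => |t|) '' univ = Ici 0 := by
        ext y
        simp only [image_univ, mem_range, mem_Ici]
        exact ⟨fun ⟨z, h⟩ => h ▸ abs_nonneg z, fun h => ⟨y, abs_of_nonneg h⟩⟩
      exact ConvexOn.comp (f := fun t : ℝ => |t|) (g := fun t => t ^ P)
        (im ▸ convexOn_rpow hP.le) convexOn_univ_norm
        (im ▸ fun a ha b _ hab => Real.rpow_le_rpow ha hab (by linarith))
    have := mid cv x k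
    have c : 0 ≤ (2 - P) ^ 2 * 2 ^ (P - 1) := by positivity
    rw [e, e, e]
    nlinarith

lemma zig {P : ℝ} (hP : 1 < P) (x y k : ℝ) {ε : ℝ} (hε : ε = 1 ∨ ε = -1) :
    Bf P (x + k) (y + ε * k) + Bf P (x - k) (y - ε * k) ≤ 2 * Bf P x y := by
  have n1 : ∀ a b, Bf P (-a) b = Bf P a b := fun a b => by simp [Bf]
  have n2 : ∀ a b, Bf P a (-b) = Bf P a b := fun a b => by simp [Bf]
  have z : ∀ x y k, Bf P (x + k) (y + k) + Bf P (x - k) (y - k) ≤ 2 * Bf P x y := by
    intro x y k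
    rcases le_total x y with h | h
    · exact zig0 hP h k
    · have := zig0 hP (neg_le_neg h) k
      rw [show -x + k = -(x - k) by ring, show -y + k = -(y - k) by ring,
        show -x - k = -(x + k) by ring, show -y - k = -(y + k) by ring] at this
      simp only [n1, n2] at this
      linarith
  rcases hε with rfl | rfl
  · simpa using z x y k
  · have := z x (-y) k
    rw [show -y + k = -(y + -1 * k) by ring, show -y - k = -(y - -1 * k) by ring] at this
    simpa only [n2] using this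

lemma major {P κ l : ℝ} (hP : 1 < P) (hκ : 0 < κ) (hl : 0 < l) : ∃ C : ℝ, 0 < C ∧ ∀ a b : ℝ,
    0 ≤ a → 0 ≤ b → κ / 2 * b ^ P - C * a ^ P ≤ (κ * b - l * a) * (a + b) ^ (P - 1) := by
  set R := 2 * l / κ with hR
  have R0 : 0 < R := by positivity
  refine ⟨κ / 2 * R ^ P + l * (1 + R) ^ (P - 1), by positivity, fun a b ha hb => ?_⟩
  have sp : ∀ t : ℝ, 0 ≤ t → t ^ P = t * t ^ (P - 1) := fun t ht => by
    rw [← Real.rpow_one_add' ht (by linarith)]; congr 1; ring
  have aP : 0 ≤ a ^ P := by positivity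
  rcases le_total (R * a) b with h | h
  · have h1 : κ / 2 * b ≤ κ * b - l * a := by
      have : κ * (R * a) = 2 * l * a := by rw [hR]; field_simp
      nlinarith
    have h2 : b ^ (P - 1) ≤ (a + b) ^ (P - 1) := Real.rpow_le_rpow hb (by linarith) (by linarith)
    have h3 := mul_le_mul h1 h2 (by positivity) (le_trans (by positivity) h1)
    have : 0 ≤ (κ / 2 * R ^ P + l * (1 + R) ^ (P - 1)) * a ^ P := by positivity
    rw [sp b hb]
    linarith
  · have h1 : b ^ P ≤ R ^ P * a ^ P := by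
      rw [← Real.mul_rpow R0.le ha]; exact Real.rpow_le_rpow hb h (by linarith)
    have h2 : (a + b) ^ (P - 1) ≤ (1 + R) ^ (P - 1) * a ^ (P - 1) := by
      rw [← Real.mul_rpow (by positivity) ha]
      exact Real.rpow_le_rpow (by positivity) (by linarith) (by linarith)
    have h3 := mul_le_mul_of_nonneg_left h2 (mul_nonneg hl.le ha)
    have h4 : 0 ≤ κ * b * (a + b) ^ (P - 1) := by positivity
    have h5 := mul_le_mul_of_nonneg_left h1 (show 0 ≤ κ / 2 by positivity)
    rw [sp a ha] at h5 ⊢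
    nlinarith

def lev (n : ℕ) : Finset ℕ := Finset.Ico (2 ^ n) (2 ^ (n + 1))

def FF {E : Type} [AddCommGroup E] (a : ℕ → E) : ℕ → ℕ → E
  | 0, _ => a 0
  | n + 1, m => FF a n (m / 2) + if m % 2 = 0 then a (m / 2) else -a (m / 2)

lemma FF_even {E : Type} [AddCommGroup E] (a : ℕ → E) (n j : ℕ) :
    FF a (n + 1) (2 * j) = FF a n j + a j := by simp [FF]
lemma FF_odd {E : Type} [AddCommGroup E] (a : ℕ → E) (n j : ℕ) :
    FF a (n + 1) (2 * j + 1) = FF a n j - a j := by
  simp [FF, show (2 * j + 1) / 2 = j by omega, sub_eq_add_neg]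

lemma sum_lev {E : Type} [AddCommMonoid E] (f : ℕ → E) (n : ℕ) :
    ∑ m ∈ lev (n + 1), f m = ∑ j ∈ lev n, (f (2 * j) + f (2 * j + 1)) := by
  have : ∀ a k, ∑ m ∈ Finset.Ico (2 * a) (2 * (a + k)), f m =
      ∑ j ∈ Finset.Ico a (a + k), (f (2 * j) + f (2 * j + 1)) := by
    intro a k
    induction k with
    | zero => simp
    | succ k ih =>
      rw [show 2 * (a + (k + 1)) = 2 * (a + k) + 1 + 1 by ring, ← add_assoc,
        Finset.sum_Ico_succ_top (by omega), Finset.sum_Ico_succ_top (by omega),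
        Finset.sum_Ico_succ_top (by omega), ih, add_assoc]
  have := this (2 ^ n) (2 ^ n)
  unfold lev
  rwa [show 2 ^ n + 2 ^ n = 2 ^ (n + 1) by ring, ← pow_succ', ← pow_succ'] at this

lemma bell {P : ℝ} (hP : 1 < P) (a b : ℕ → ℝ) (h : ∀ m, b m = a m ∨ b m = -a m) (n : ℕ) :
    ∑ m ∈ lev n, Bf P (FF a n m) (FF b n m) ≤ 0 := by
  induction n with
  | zero =>
    have : |b 0| = |a 0| := by rcases h 0 with e | e <;> simp [e]
    simp only [lev, FF, Bf, this, Finset.sum_const, nsmul_eq_mul]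
    have : 0 ≤ (2 - P) ^ 2 * |a 0| * (|a 0| + |a 0|) ^ (P - 1) := by positivity
    norm_num
    nlinarith
  | succ n ih =>
    rw [sum_lev]
    refine (Finset.sum_le_sum fun j _ => ?_).trans
      (show ∑ m ∈ lev n, 2 * Bf P (FF a n m) (FF b n m) ≤ 0 by rw [← Finset.mul_sum]; linarith)
    rw [FF_even, FF_even, FF_odd, FF_odd]
    rcases h j with e | e <;> rw [e]
    · simpa using zig hP _ _ (a j) (.inl rfl)
    · simpa using zig hP (FF a n j) (FF b n j) (a j) (.inr rfl)

theorem transform {P : ℝ} (hP : 1 < P) (h2 : P ≠ 2) : ∃ C : ℝ, 0 < C ∧ ∀ (a b : ℕ → ℝ),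
    (∀ m, b m = a m ∨ b m = -a m) → ∀ n,
      ∑ m ∈ lev n, |FF b n m| ^ P ≤ C * ∑ m ∈ lev n, |FF a n m| ^ P := by
  rcases lt_or_gt_of_ne h2 with h | h
  · obtain ⟨C, C0, hC⟩ := major (κ := P - 1) (l := 1) hP (by linarith) one_pos
    refine ⟨C / ((P - 1) / 2), div_pos C0 (by linarith), fun a b hab n => ?_⟩
    have b1 := bell hP a b hab n
    simp only [Bf] at b1
    rw [← Finset.mul_sum] at b1
    have b2 := nonpos_of_mul_nonpos_right b1 (show 0 < 2 - P by linarith)
    have b3 := (Finset.sum_le_sum fun m (_ : m ∈ lev n) => hC |FF a n m| |FF b n m| (abs_nonneg _)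
      (abs_nonneg _))
    simp only [one_mul] at b3
    rw [Finset.sum_sub_distrib, ← Finset.mul_sum, ← Finset.mul_sum] at b3
    rw [div_mul_eq_mul_div, le_div_iff₀ (by linarith)]
    linarith
  · obtain ⟨C, C0, hC⟩ := major (κ := 1) (l := P - 1) hP one_pos (by linarith)
    refine ⟨2 * C, by positivity, fun a b hab n => ?_⟩
    have b1 := bell hP b a (fun m => (hab m).imp Eq.symm fun e => by rw [e, neg_neg]) n
    simp only [Bf] at b1
    rw [← Finset.mul_sum] at b1
    have b2 := nonneg_of_mul_nonpos_right b1 (show 2 - P < 0 by linarith)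
    have b3 := (Finset.sum_le_sum fun m (_ : m ∈ lev n) => hC |FF a n m| |FF b n m| (abs_nonneg _)
      (abs_nonneg _))
    rw [Finset.sum_sub_distrib, ← Finset.mul_sum, ← Finset.mul_sum] at b3
    have : ∑ m ∈ lev n, (1 * |FF b n m| - (P - 1) * |FF a n m|) * (|FF a n m| + |FF b n m|) ^ (P - 1)
        = -∑ m ∈ lev n, ((P - 1) * |FF a n m| - |FF b n m|) * (|FF b n m| + |FF a n m|) ^ (P - 1) := by
      rw [← Finset.sum_neg_distrib]
      exact Finset.sum_congr rfl fun m _ => by rw [add_comm]; ring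
    linarith

lemma moments (a : ℕ → ℂ) (s : Finset ℕ) : ∀ z : ℂ,
    ∑ T ∈ s.powerset, ‖z + ∑ j ∈ s, if j ∈ T then a j else -a j‖ ^ 2 =
      2 ^ s.card * (‖z‖ ^ 2 + ∑ j ∈ s, ‖a j‖ ^ 2) ∧
    ∑ T ∈ s.powerset, (‖z + ∑ j ∈ s, if j ∈ T then a j else -a j‖ ^ 2) ^ 2 ≤
      2 ^ s.card * ((‖z‖ ^ 2) ^ 2 + 6 * ‖z‖ ^ 2 * ∑ j ∈ s, ‖a j‖ ^ 2 +
        3 * (∑ j ∈ s, ‖a j‖ ^ 2) ^ 2) := by
  induction s using Finset.induction_on with
  | empty => simp
  | insert i s hi ih =>
    intro z
    have e : ∀ F : ℂ → ℝ, ∑ T ∈ (insert i s).powerset,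
        F (z + ∑ j ∈ insert i s, if j ∈ T then a j else -a j) =
        ∑ T ∈ s.powerset, F (z - a i + ∑ j ∈ s, if j ∈ T then a j else -a j) +
        ∑ T ∈ s.powerset, F (z + a i + ∑ j ∈ s, if j ∈ T then a j else -a j) := by
      intro F
      rw [Finset.sum_powerset_insert hi]
      congr 1 <;> refine Finset.sum_congr rfl fun T hT => ?_
      · rw [Finset.sum_insert hi, if_neg fun h => hi (Finset.mem_powerset.1 hT h)]
        congr 1; ring
      · rw [Finset.sum_insert hi, if_pos (Finset.mem_insert_self _ _), ← add_assoc]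
        congr 2
        refine Finset.sum_congr rfl fun j hj => ?_
        simp [(ne_of_mem_of_not_mem hj hi)]
    rw [e fun w => ‖w‖ ^ 2, e fun w => (‖w‖ ^ 2) ^ 2, (ih _).1, (ih _).1, Finset.sum_insert hi,
      Finset.card_insert_of_notMem hi, pow_succ (2 : ℝ) s.card]
    have h1 := (ih (z - a i)).2
    have h2 := (ih (z + a i)).2
    have s0 : 0 ≤ ∑ j ∈ s, ‖a j‖ ^ 2 := Finset.sum_nonneg fun _ _ => by positivity
    generalize ∑ j ∈ s, ‖a j‖ ^ 2 = σ at *
    have p2 : (0 : ℝ) < 2 ^ s.card := by positivity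
    simp only [Complex.sq_norm, Complex.normSq_apply, Complex.add_re, Complex.add_im,
      Complex.sub_re, Complex.sub_im] at h1 h2 ⊢
    refine ⟨by ring, (add_le_add h1 h2).trans ?_⟩
    rw [← mul_add, mul_assoc (2 ^ s.card : ℝ) 2]
    refine mul_le_mul_of_nonneg_left ?_ p2.le
    nlinarith [sq_nonneg (z.re * (a i).im - z.im * (a i).re),
      sq_nonneg ((a i).re * (a i).re + (a i).im * (a i).im),
      mul_nonneg s0 (add_nonneg (mul_self_nonneg (a i).re) (mul_self_nonneg (a i).im))]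

theorem khin (a : ℕ → ℂ) (s : Finset ℕ) : 2 ^ s.card * √(∑ j ∈ s, ‖a j‖ ^ 2) ≤
    2 * ∑ T ∈ s.powerset, ‖∑ j ∈ s, if j ∈ T then a j else -a j‖ := by
  obtain ⟨h1, h2⟩ := moments a s 0
  simp only [zero_add, norm_zero, ne_eq, OfNat.ofNat_ne_zero, not_false_eq_true, zero_pow,
    mul_zero, zero_mul] at h1 h2
  have s0 : 0 ≤ ∑ j ∈ s, ‖a j‖ ^ 2 := Finset.sum_nonneg fun _ _ => by positivity
  rw [← Real.sq_sqrt s0] at h1 h2
  have σ0 := Real.sqrt_nonneg (∑ j ∈ s, ‖a j‖ ^ 2)
  generalize √(∑ j ∈ s, ‖a j‖ ^ 2) = σ at *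
  rcases σ0.eq_or_lt with rfl | σ0
  · simpa using Finset.sum_nonneg fun _ _ => norm_nonneg _
  have pt : ∀ t : ℝ, 0 ≤ t → 6 * σ ^ 2 * t ^ 2 ≤ 6 * σ ^ 3 * t + (t ^ 2) ^ 2 := by
    intro t ht
    have : 0 ≤ 6 * σ ^ 3 - 6 * σ ^ 2 * t + t ^ 3 := by
      nlinarith [mul_nonneg ht (sq_nonneg (2 * t - 3 * σ)), mul_nonneg σ0.le (sq_nonneg (2 * t - 3 * σ)),
        mul_nonneg σ0.le (sq_nonneg (4 * t - 5 * σ)), pow_pos σ0 3]
    nlinarith [mul_nonneg ht this]
  have := Finset.sum_le_sum fun T (_ : T ∈ s.powerset) =>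
    pt _ (norm_nonneg (∑ j ∈ s, if j ∈ T then a j else -a j))
  rw [Finset.sum_add_distrib, ← Finset.mul_sum, ← Finset.mul_sum, h1] at this
  refine le_of_mul_le_mul_left ?_ (show 0 < 3 * σ ^ 3 by positivity)
  nlinarith

end Pool.Agent.H.Haar
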