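import Pool.Agent.H.MP_aa72b5_an.A

/-! The Haar system is an unconditional basis of `L^p` of the circle. -/

namespace Pool.Agent.H.Haar

open MeasureTheory Set
open scoped ENNReal

abbrev X := AddCircle (1 : ℝ)

variable [Fact ((0 : ℝ) < 1)]

instance prob : IsProbabilityMeasure (volume : Measure X) := ⟨by simp [AddCircle.measure_univ]⟩

noncomputable def rp (t : X) : ℝ := (AddCircle.equivIco 1 1 t : ℝ)
noncomputable def node (n : ℕ) (t : X) : ℕ := ⌊2 ^ n * rp t⌋₊

lemma rp_mem (t : X) : 1 ≤ rp t ∧ rp t < 2 := by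
  have := (AddCircle.equivIco 1 1 t).2
  exact ⟨this.1, by have := this.2; unfold rp; linarith⟩

lemma node_iff {n m : ℕ} {t : X} :
    node n t = m ↔ (m : ℝ) / 2 ^ n ≤ rp t ∧ rp t < (m + 1) / 2 ^ n := by
  have := (rp_mem t).1
  rw [node, Nat.floor_eq_iff (by positivity), div_le_iff₀' (by positivity),
    lt_div_iff₀' (by positivity)]

lemma node_mem (n : ℕ) (t : X) : node n t ∈ lev n := by
  obtain ⟨h1, h2⟩ := rp_mem t
  have p : (0 : ℝ) < 2 ^ n := by positivity
  rw [lev, Finset.mem_Ico, node, Nat.le_floor_iff (by positivity), Nat.floor_lt (by positivity)]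
  push_cast
  rw [pow_succ]
  constructor <;> nlinarith

lemma node_half (n : ℕ) (t : X) : node (n + 1) t / 2 = node n t := by
  rw [node, ← Nat.floor_div_ofNat, node]
  congr 1; ring

lemma node_meas (n : ℕ) : Measurable (node n) :=
  Nat.measurable_floor.comp ((measurable_subtype_coe.comp
    (AddCircle.measurableEquivIco 1 1).measurable).const_mul _)

lemma node_vol {n m : ℕ} (hm : m ∈ lev n) : volume.real (node n ⁻¹' {m}) = (2 ^ n)⁻¹ := by
  have p : (0 : ℝ) < 2 ^ n := by positivity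
  rw [lev, Finset.mem_Ico] at hm
  have h1 : (1 : ℝ) ≤ m / 2 ^ n := by rw [le_div_iff₀ p, one_mul]; exact_mod_cast hm.1
  have h2 : ((m : ℝ) + 1) / 2 ^ n ≤ 1 + 1 := by
    rw [div_le_iff₀ p, show (1 + 1 : ℝ) * 2 ^ n = 2 ^ (n + 1) by ring]; exact_mod_cast hm.2
  have mp := (AddCircle.measurePreserving_mk 1 1).measure_preimage
    (node_meas n (MeasurableSet.singleton m)).nullMeasurableSet
  rw [← Measure.restrict_congr_set Ico_ae_eq_Ioc, Measure.restrict_apply' measurableSet_Ico] at mp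
  have e : (QuotientAddGroup.mk : ℝ → X) ⁻¹' (node n ⁻¹' {m}) ∩ Ico 1 (1 + 1) =
      Ico ((m : ℝ) / 2 ^ n) ((m + 1) / 2 ^ n) := by
    ext x
    simp only [mem_inter_iff, mem_preimage, mem_singleton_iff, node_iff]
    constructor
    · rintro ⟨h, hx⟩
      rwa [rp, AddCircle.equivIco_coe_of_mem hx] at h
    · intro h
      have hx : x ∈ Ico (1 : ℝ) (1 + 1) := ⟨h1.trans h.1, h.2.trans_le h2⟩
      exact ⟨by rwa [rp, AddCircle.equivIco_coe_of_mem hx], hx⟩
  rw [measureReal_def, ← mp, e, Real.volume_Ico, ENNReal.toReal_ofReal (by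
    rw [← sub_div, add_sub_cancel_left]; positivity)]
  field_simp; ring

lemma integral_node {E : Type} [NormedAddCommGroup E] [NormedSpace ℝ E] [CompleteSpace E]
    (n : ℕ) (Φ : ℕ → E) : ∫ t, Φ (node n t) = ((2 : ℝ) ^ n)⁻¹ • ∑ m ∈ lev n, Φ m := by
  have e : ∀ t, Φ (node n t) = ∑ m ∈ lev n, (node n ⁻¹' {m}).indicator (fun _ => Φ m) t := by
    intro t
    simp [indicator, node_mem]
  have ms := fun m => node_meas n (MeasurableSet.singleton m)
  simp only [e]
  rw [integral_finset_sum _ fun m _ => (integrable_const _).indicator (ms m), Finset.smul_sum]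
  exact Finset.sum_congr rfl fun m hm => by rw [integral_indicator_const _ (ms m), node_vol hm]

lemma st_meas (n : ℕ) (Φ : ℕ → ℂ) : AEStronglyMeasurable (fun t => Φ (node n t)) volume :=
  ((measurable_of_countable Φ).comp (node_meas n)).aestronglyMeasurable

lemma st_bd (n : ℕ) (Φ : ℕ → ℂ) (t : X) : ‖Φ (node n t)‖ ≤ ∑ m ∈ lev n, ‖Φ m‖ :=
  Finset.single_le_sum (f := fun m => ‖Φ m‖) (fun _ _ => norm_nonneg _) (node_mem n t)

lemma st_mem (p : ℝ≥0∞) (n : ℕ) (Φ : ℕ → ℂ) : MemLp (fun t => Φ (node n t)) p volume :=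
  MemLp.of_bound (st_meas n Φ) _ (Filter.Eventually.of_forall (st_bd n Φ))

noncomputable abbrev LL (p : ℝ≥0∞) := Lp ℂ p (volume : Measure X)

noncomputable def T (p : ℝ≥0∞) (n : ℕ) : (ℕ → ℂ) →ₗ[ℂ] LL p where
  toFun Φ := (st_mem p n Φ).toLp _
  map_add' Φ Ψ := MemLp.toLp_add (st_mem p n Φ) (st_mem p n Ψ)
  map_smul' c Φ := MemLp.toLp_const_smul c (st_mem p n Φ)

variable {p : ℝ≥0∞}

lemma T_ae (n : ℕ) (Φ : ℕ → ℂ) : T p n Φ =ᵐ[volume] fun t => Φ (node n t) :=
  MemLp.coeFn_toLp (st_mem p n Φ)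

lemma T_congr {n : ℕ} {Φ Ψ : ℕ → ℂ} (h : ∀ m ∈ lev n, Φ m = Ψ m) : T p n Φ = T p n Ψ :=
  MemLp.toLp_congr (st_mem p n Φ) (st_mem p n Ψ)
    (Filter.Eventually.of_forall fun t => h _ (node_mem n t))

lemma T_half (n : ℕ) (Φ : ℕ → ℂ) : T p (n + 1) (fun m => Φ (m / 2)) = T p n Φ :=
  MemLp.toLp_congr (st_mem p _ fun m => Φ (m / 2)) (st_mem p n Φ)
    (Filter.Eventually.of_forall fun t => by simp only [node_half])

lemma norm_T (h0 : p ≠ 0) (h1 : p ≠ ∞) (n : ℕ) (Φ : ℕ → ℂ) : ‖T p n Φ‖ =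
    (((2 : ℝ) ^ n)⁻¹ * ∑ m ∈ lev n, ‖Φ m‖ ^ p.toReal) ^ p.toReal⁻¹ := by
  change ‖(st_mem p n Φ).toLp _‖ = _
  rw [Lp.norm_toLp, (st_mem p n Φ).eLpNorm_eq_integral_rpow_norm h0 h1,
    integral_node n fun m => ‖Φ m‖ ^ p.toReal, ENNReal.toReal_ofReal, smul_eq_mul]
  exact Real.rpow_nonneg (smul_nonneg (by positivity)
    (Finset.sum_nonneg fun _ _ => by positivity)) _

def hf (m i : ℕ) : ℂ := if i = 2 * m then 1 else if i = 2 * m + 1 then -1 else 0
def sg (b : ℕ → ℂ) (i : ℕ) : ℂ := if i % 2 = 0 then b (i / 2) else -b (i / 2)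

noncomputable def ee (p : ℝ≥0∞) (m : ℕ) : LL p :=
  if m = 0 then T p 0 (fun _ => 1) else T p (Nat.log 2 m + 1) (hf m)

omit [Fact ((0 : ℝ) < 1)] in
lemma lev_log {k m : ℕ} (h : m ∈ lev k) : m ≠ 0 ∧ Nat.log 2 m = k := by
  rw [lev, Finset.mem_Ico] at h
  have : 0 < 2 ^ k := by positivity
  exact ⟨by omega, Nat.log_eq_of_pow_le_of_lt_pow h.1 h.2⟩

omit [Fact ((0 : ℝ) < 1)] in
lemma log_lev {m : ℕ} (h : m ≠ 0) : m ∈ lev (Nat.log 2 m) :=
  Finset.mem_Ico.2 ⟨Nat.pow_log_le_self 2 h, Nat.lt_pow_succ_log_self (by norm_num) m⟩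

omit [Fact ((0 : ℝ) < 1)] in
lemma half_lev {k i : ℕ} (h : i ∈ lev (k + 1)) : i / 2 ∈ lev k := by
  simp only [lev, Finset.mem_Ico, pow_succ] at h ⊢
  omega

omit [Fact ((0 : ℝ) < 1)] in
lemma sum_hf (b : ℕ → ℂ) {k i : ℕ} (h : i ∈ lev (k + 1)) :
    (∑ j ∈ lev k, b j • hf j) i = sg b i := by
  rw [Finset.sum_apply, Finset.sum_eq_single_of_mem _ (half_lev h)]
  · simp only [Pi.smul_apply, hf, sg, smul_eq_mul]
    split_ifs <;> first | omega | simp
  · intro j _ hj
    simp only [Pi.smul_apply, hf, smul_eq_mul]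
    split_ifs <;> first | omega | simp

lemma sum_lev_e (b : ℕ → ℂ) (k : ℕ) : ∑ m ∈ lev k, b m • ee p m = T p (k + 1) (sg b) := by
  rw [← T_congr fun i hi => sum_hf b hi, map_sum]
  refine Finset.sum_congr rfl fun m hm => ?_
  rw [map_smul, ee, if_neg (lev_log hm).1, (lev_log hm).2]

lemma sum_e (a : ℕ → ℂ) (n : ℕ) :
    ∑ m ∈ Finset.range (2 ^ n), a m • ee p m = T p n (FF a n) := by
  induction n with
  | zero =>
    simp only [pow_zero, Finset.range_one, Finset.sum_singleton, ee, if_true]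
    rw [← map_smul]
    exact T_congr fun m _ => by simp [FF]
  | succ n ih =>
    rw [← Finset.sum_range_add_sum_Ico _ (Nat.pow_le_pow_right two_pos n.le_succ), ih]
    change _ + ∑ m ∈ lev n, _ = _
    rw [sum_lev_e, ← T_half, ← map_add]
    rfl

omit [Fact ((0 : ℝ) < 1)] in
lemma FF_map (f : ℂ →+ ℝ) (a : ℕ → ℂ) (n m : ℕ) : FF (fun i => f (a i)) n m = f (FF a n m) := by
  induction n generalizing m with
  | zero => rfl
  | succ n ih => simp only [FF, ih, map_add]; split_ifs <;> simp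

theorem uncond (h1 : 1 < p) (h2 : p ≠ ∞) (h3 : p ≠ 2) : ∃ C : ℝ, 0 ≤ C ∧
    ∀ (a : ℕ → ℂ) (s : Finset ℕ) (n : ℕ),
      ‖∑ m ∈ Finset.range (2 ^ n), (if m ∈ s then a m else 0) • ee p m‖ ≤
        C * ‖∑ m ∈ Finset.range (2 ^ n), a m • ee p m‖ := by
  have h0 : p ≠ 0 := (zero_lt_one.trans h1).ne'
  have hP : 1 < p.toReal := by simpa using (ENNReal.toReal_lt_toReal ENNReal.one_ne_top h2).2 h1
  have hP2 : p.toReal ≠ 2 := fun h => h3 (by
    rw [← ENNReal.ofReal_toReal h2, h]; simp)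
  haveI : Fact (1 ≤ p) := ⟨h1.le⟩
  set P := p.toReal
  obtain ⟨C, C0, hC⟩ := transform hP hP2
  refine ⟨((2 ^ P * (2 * C)) ^ P⁻¹ + 1) / 2, by positivity, fun a s n => ?_⟩
  set b : ℕ → ℂ := fun m => if m ∈ s then a m else -a m
  have key : ‖T p n (FF b n)‖ ≤ (2 ^ P * (2 * C)) ^ P⁻¹ * ‖T p n (FF a n)‖ := by
    have sn : ∀ c : ℕ → ℂ, 0 ≤ ∑ m ∈ lev n, ‖c m‖ ^ P :=
      fun c => Finset.sum_nonneg fun _ _ => by positivity
    rw [norm_T h0 h2, norm_T h0 h2, ← Real.mul_rpow (by positivity)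
      (mul_nonneg (by positivity) (sn _)), mul_left_comm]
    refine Real.rpow_le_rpow (mul_nonneg (by positivity) (sn _))
      (mul_le_mul_of_nonneg_left ?_ (by positivity)) (by positivity)
    have tr : ∀ f : ℂ →+ ℝ, (∀ z, |f z| ≤ ‖z‖) →
        ∑ m ∈ lev n, |f (FF b n m)| ^ P ≤ C * ∑ m ∈ lev n, ‖FF a n m‖ ^ P := by
      intro f hf
      have := hC (fun i => f (a i)) (fun i => f (b i)) (fun m => by
        simp only [b]; split_ifs <;> simp) n
      simp only [FF_map] at this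
      refine this.trans (mul_le_mul_of_nonneg_left (Finset.sum_le_sum fun m _ => ?_) C0.le)
      exact Real.rpow_le_rpow (abs_nonneg _) (hf _) (by positivity)
    have r1 := tr Complex.reAddGroupHom Complex.abs_re_le_norm
    have r2 := tr Complex.imAddGroupHom Complex.abs_im_le_norm
    have pt : ∀ z : ℂ, ‖z‖ ^ P ≤ 2 ^ P * (|z.re| ^ P + |z.im| ^ P) := by
      intro z
      have := Complex.norm_le_abs_re_add_abs_im z
      have a1 : 0 ≤ |z.re| ^ P := by positivity
      have a2 : 0 ≤ |z.im| ^ P := by positivity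
      rcases le_total |z.re| |z.im| with h | h
      · calc _ ≤ (2 * |z.im|) ^ P := Real.rpow_le_rpow (norm_nonneg _) (by linarith) (by positivity)
          _ = 2 ^ P * |z.im| ^ P := Real.mul_rpow (by norm_num) (abs_nonneg _)
          _ ≤ _ := by gcongr; linarith
      · calc _ ≤ (2 * |z.re|) ^ P := Real.rpow_le_rpow (norm_nonneg _) (by linarith) (by positivity)
          _ = 2 ^ P * |z.re| ^ P := Real.mul_rpow (by norm_num) (abs_nonneg _)
          _ ≤ _ := by gcongr; linarith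
    refine (Finset.sum_le_sum fun m _ => pt _).trans ?_
    rw [← Finset.mul_sum, Finset.sum_add_distrib, mul_assoc]
    refine mul_le_mul_of_nonneg_left ?_ (by positivity)
    simp only [Complex.coe_reAddGroupHom, Complex.coe_imAddGroupHom] at r1 r2
    linarith
  have e : ∑ m ∈ Finset.range (2 ^ n), (if m ∈ s then a m else 0) • ee p m =
      (1 / 2 : ℂ) • (T p n (FF b n) + T p n (FF a n)) := by
    rw [← sum_e, ← sum_e, ← Finset.sum_add_distrib, Finset.smul_sum]
    refine Finset.sum_congr rfl fun m _ => ?_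
    rw [← add_smul, smul_smul]
    congr 1
    simp only [b]
    split_ifs <;> ring
  rw [e, sum_e, norm_smul]
  have := norm_add_le (T p n (FF b n)) (T p n (FF a n))
  norm_num
  linarith

variable [Fact (1 ≤ p)]

lemma int_f (f : LL p) : Integrable f volume := (Lp.memLp f).integrable Fact.out

lemma int_fW (f : LL p) (n : ℕ) (W : ℕ → ℂ) : Integrable (fun t => f t * W (node n t)) volume :=
  (int_f f).mul_bdd (st_meas n W) (Filter.Eventually.of_forall (st_bd n W))

lemma pb (f : LL p) {n : ℕ} {W : ℕ → ℂ} {c : ℝ} (h : ∀ m ∈ lev n, ‖W m‖ ≤ c) :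
    ‖∫ t, f t * W (node n t)‖ ≤ c * ‖f‖ := by
  have c0 : 0 ≤ c := (norm_nonneg _).trans (h _ (node_mem n 0))
  have l1 : ∫ t, ‖f t‖ ≤ ‖f‖ := by
    rw [Lp.norm_def, integral_norm_eq_lintegral_enorm (Lp.aestronglyMeasurable f),
      ← eLpNorm_one_eq_lintegral_enorm]
    exact ENNReal.toReal_mono (Lp.eLpNorm_ne_top f)
      (eLpNorm_le_eLpNorm_of_exponent_le Fact.out (Lp.aestronglyMeasurable f))
  calc _ ≤ ∫ t, c * ‖f t‖ := norm_integral_le_of_norm_le ((int_f f).norm.const_mul c)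
        (Filter.Eventually.of_forall fun t => by
          rw [norm_mul, mul_comm]; gcongr; exact h _ (node_mem n t))
    _ = c * ∫ t, ‖f t‖ := integral_const_mul _ _
    _ ≤ _ := by gcongr

variable (p) in
noncomputable def phi (n : ℕ) (W : ℕ → ℂ) : LL p →L[ℂ] ℂ :=
  LinearMap.mkContinuous
    { toFun := fun f => ∫ t, f t * W (node n t)
      map_add' := fun f g => by
        rw [← integral_add (int_fW f n W) (int_fW g n W)]
        refine integral_congr_ae ?_
        filter_upwards [Lp.coeFn_add f g] with t ht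
        rw [ht, Pi.add_apply, add_mul]
      map_smul' := fun c f => by
        rw [RingHom.id_apply, smul_eq_mul, ← integral_const_mul]
        refine integral_congr_ae ?_
        filter_upwards [Lp.coeFn_smul c f] with t ht
        rw [ht, Pi.smul_apply, smul_eq_mul, mul_assoc] }
    (∑ m ∈ lev n, ‖W m‖) fun f => pb f fun m hm =>
      Finset.single_le_sum (f := fun m => ‖W m‖) (fun _ _ => norm_nonneg _) hm

lemma phi_app (n : ℕ) (W : ℕ → ℂ) (f : LL p) : phi p n W f = ∫ t, f t * W (node n t) := rfl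

lemma phi_norm {n : ℕ} {W : ℕ → ℂ} (h : ∀ m ∈ lev n, ‖W m‖ ≤ 1) : ‖phi p n W‖ ≤ 1 :=
  ContinuousLinearMap.opNorm_le_bound _ zero_le_one fun f => pb f h

lemma phi_T (n : ℕ) (W Φ : ℕ → ℂ) :
    phi p n W (T p n Φ) = (2 ^ n)⁻¹ * ∑ m ∈ lev n, Φ m * W m := by
  rw [phi_app, integral_congr_ae (g := fun t => (fun m => Φ m * W m) (node n t)),
    integral_node n fun m => Φ m * W m]
  · simp
  · filter_upwards [T_ae (p := p) n Φ] with t ht
    rw [ht]

lemma phi_half (n : ℕ) (W : ℕ → ℂ) : phi p (n + 1) (fun m => W (m / 2)) = phi p n W := by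
  ext f; simp only [phi_app, node_half]

lemma phi_sum (b : ℕ → ℂ) (k : ℕ) (f : LL p) :
    ∑ j ∈ lev k, b j * phi p (k + 1) (hf j) f = phi p (k + 1) (sg b) f := by
  simp only [phi_app, ← integral_const_mul]
  rw [← integral_finset_sum _ fun j _ => (int_fW f _ _).const_mul _]
  refine integral_congr_ae (Filter.Eventually.of_forall fun t => ?_)
  dsimp only
  rw [← sum_hf b (node_mem _ t), Finset.sum_apply, Finset.mul_sum]
  exact Finset.sum_congr rfl fun j _ => by simp only [Pi.smul_apply, smul_eq_mul]; ring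

lemma phi_stab (a W : ℕ → ℂ) {l n : ℕ} (h : l ≤ n) :
    phi p l W (T p n (FF a n)) = phi p l W (T p l (FF a l)) := by
  have B : ∀ n, l ≤ n → ∃ W', phi p l W = phi p n W' := by
    intro n hn
    induction n, hn using Nat.le_induction with
    | base => exact ⟨W, rfl⟩
    | succ n _ ih => obtain ⟨W', e⟩ := ih; exact ⟨_, e.trans (phi_half n W').symm⟩
  induction n, h using Nat.le_induction with
  | base => rfl
  | succ n hn ih =>
    rw [← ih]
    obtain ⟨W', e⟩ := B n hn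
    rw [e, phi_T, ← phi_half, phi_T, sum_lev, pow_succ, mul_inv, mul_assoc, Finset.mul_sum]
    congr 1
    refine Finset.sum_congr rfl fun j _ => ?_
    rw [FF_even, FF_odd, show 2 * j / 2 = j by omega, show (2 * j + 1) / 2 = j by omega]
    ring

variable (p) in
noncomputable def co (m : ℕ) : LL p →L[ℂ] ℂ :=
  if m = 0 then phi p 0 (fun _ => 1) else (2 ^ Nat.log 2 m : ℂ) • phi p (Nat.log 2 m + 1) (hf m)

lemma co_sum (a : ℕ → ℂ) {n m : ℕ} (h : m < 2 ^ n) :
    co p m (∑ i ∈ Finset.range (2 ^ n), a i • ee p i) = a m := by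
  rw [sum_e, co]
  split_ifs with h0
  · rw [phi_stab _ _ (Nat.zero_le n), phi_T, h0]; simp [lev, FF]
  · rw [ContinuousLinearMap.smul_apply, phi_stab _ _ (Nat.log_lt_of_lt_pow h0 h), phi_T, sum_lev,
      Finset.sum_eq_single_of_mem _ (log_lev h0), FF_even, FF_odd]
    · simp only [hf, if_true, smul_eq_mul]
      rw [if_neg (by omega), Nat.succ_eq_add_one, pow_succ]
      field_simp; ring
    · intro j _ hj
      simp only [hf]
      split_ifs <;> first | omega | simp

lemma co_e (m i : ℕ) : co p m (ee p i) = if m = i then 1 else 0 := by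
  have h1 : m < 2 ^ (m + i) := Nat.lt_two_pow_self.trans_le (Nat.pow_le_pow_right two_pos (by omega))
  have h2 : i < 2 ^ (m + i) := Nat.lt_two_pow_self.trans_le (Nat.pow_le_pow_right two_pos (by omega))
  rw [← co_sum (p := p) (fun j => if j = i then 1 else 0) h1]
  simp [h2]

omit [Fact ((0 : ℝ) < 1)] in
lemma FF_surj (n : ℕ) : ∀ Φ : ℕ → ℂ, ∃ a, ∀ m ∈ lev n, FF a n m = Φ m := by
  have loc : ∀ (a b : ℕ → ℂ) n, (∀ i < 2 ^ n, a i = b i) → ∀ m ∈ lev n, FF a n m = FF b n m := by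
    intro a b n
    induction n with
    | zero => intro h m _; exact h 0 (by norm_num)
    | succ n ih =>
      intro h m hm
      simp only [FF]
      rw [ih (fun i hi => h i (by rw [pow_succ]; omega)) _ (half_lev hm),
        h _ (Finset.mem_Ico.1 (half_lev hm)).2]
  induction n with
  | zero => exact fun Φ => ⟨fun _ => Φ 1, fun m hm => by
      obtain rfl : m = 1 := by simpa [lev] using hm
      rfl⟩
  | succ n ih =>
    intro Φ
    obtain ⟨a, ha⟩ := ih fun j => (Φ (2 * j) + Φ (2 * j + 1)) / 2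
    refine ⟨fun j => if j < 2 ^ n then a j else (Φ (2 * j) - Φ (2 * j + 1)) / 2, fun m hm => ?_⟩
    have h := half_lev hm
    simp only [FF]
    rw [loc _ a n (fun i hi => if_pos hi) _ h, ha _ h, if_neg (Finset.mem_Ico.1 h).1.not_gt]
    split_ifs with e
    · rw [show 2 * (m / 2) = m by omega]; ring
    · rw [show 2 * (m / 2) + 1 = m by omega]; ring

lemma near_node (n : ℕ) (t : X) : ∃ x y : ℝ, (x : X) = t ∧ y = node n t / 2 ^ n ∧
    |x - y| ≤ (2 ^ n)⁻¹ := by
  refine ⟨rp t, _, AddCircle.coe_equivIco, rfl, ?_⟩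
  obtain ⟨h1, h2⟩ := node_iff.1 (rfl : node n t = node n t)
  rw [add_div, one_div] at h2
  rw [abs_of_nonneg (by linarith)]; linarith

lemma dense (h2 : p ≠ ∞) : DenseRange fun q : ℕ × (ℕ → ℂ) =>
    ∑ i ∈ Finset.range (2 ^ q.1), q.2 i • ee p i := by
  refine Metric.denseRange_iff.2 fun f ε hε => ?_
  obtain ⟨g, hg⟩ := Metric.denseRange_iff.1
    (ContinuousMap.toLp_denseRange ℂ (volume : Measure X) ℂ h2) f (ε / 2) (by positivity)
  have uc : UniformContinuous fun x : ℝ => g (x : X) :=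
    (CompactSpace.uniformContinuous_of_continuous g.continuous).comp
      (uniformContinuous_addMonoidHom_of_continuous (f := QuotientAddGroup.mk' _)
        QuotientAddGroup.continuous_mk)
  obtain ⟨δ, δ0, hδ⟩ := Metric.uniformContinuous_iff.1 uc (ε / 2) (by positivity)
  obtain ⟨n, hn⟩ := exists_pow_lt_of_lt_one δ0 (show (2 : ℝ)⁻¹ < 1 by norm_num)
  obtain ⟨a, ha⟩ := FF_surj n fun m => g (((m : ℝ) / 2 ^ n : ℝ) : X)
  refine ⟨(n, a), ?_⟩
  have : dist (ContinuousMap.toLp p volume ℂ g) (∑ i ∈ Finset.range (2 ^ n), a i • ee p i) ≤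
      ε / 2 := by
    rw [sum_e, T_congr ha, dist_eq_norm]
    refine (Lp.norm_le_of_ae_bound (C := ε / 2) (by positivity) ?_).trans
      (by simp [measureUnivNNReal])
    filter_upwards [Lp.coeFn_sub (ContinuousMap.toLp p volume ℂ g)
      (T p n fun m => g (((m : ℝ) / 2 ^ n : ℝ) : X)), ContinuousMap.coeFn_toLp (p := p) (𝕜 := ℂ)
      (volume : Measure X) g, T_ae (p := p) n fun m => g (((m : ℝ) / 2 ^ n : ℝ) : X)] with t h1 h2 h3
    obtain ⟨x, y, rfl, hy, hxy⟩ := near_node n t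
    rw [h1, Pi.sub_apply, h2, h3, ← hy, ← dist_eq_norm]
    exact (hδ (hxy.trans_lt (by rwa [inv_pow] at hn))).le
  linarith [dist_triangle f (ContinuousMap.toLp p volume ℂ g)
    (∑ i ∈ Finset.range (2 ^ n), a i • ee p i)]

lemma proj_fix (a : ℕ → ℂ) {n : ℕ} {s : Finset ℕ} :
    ∑ i ∈ s, co p i (∑ m ∈ Finset.range (2 ^ n), a m • ee p m) • ee p i =
      ∑ m ∈ Finset.range (2 ^ n), (if m ∈ s then a m else 0) • ee p m := by
  simp only [map_sum, map_smul, co_e, smul_eq_mul, Finset.sum_smul]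
  rw [Finset.sum_comm]
  refine Finset.sum_congr rfl fun m _ => ?_
  simp [ite_smul]

theorem basis (h1 : 1 < p) (h2 : p ≠ ∞) (h3 : p ≠ 2) (f : LL p) :
    ∃! a : ℕ → ℂ, HasSum (fun n => a n • ee p n) f := by
  obtain ⟨C, C0, hC⟩ := uncond h1 h2 h3
  have bd : ∀ (s : Finset ℕ) (h : LL p), ‖∑ i ∈ s, co p i h • ee p i‖ ≤ C * ‖h‖ := by
    intro s h
    refine (dense h2).induction_on h (isClosed_le (by fun_prop) (by fun_prop)) fun q => ?_
    rw [proj_fix]; exact hC _ _ _
  refine ⟨fun i => co p i f, ?_, fun a ha => funext fun m => ?_⟩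
  · refine Metric.tendsto_atTop.2 fun ε hε => ?_
    obtain ⟨⟨n, a⟩, hq⟩ := Metric.denseRange_iff.1 (dense h2) f (ε / (C + 1)) (by positivity)
    refine ⟨Finset.range (2 ^ n), fun s hs => ?_⟩
    dsimp only at hq
    set g := ∑ i ∈ Finset.range (2 ^ n), a i • ee p i with hg
    have e1 : ∑ i ∈ s, co p i g • ee p i = g := by
      rw [hg, proj_fix]
      exact Finset.sum_congr rfl fun m hm => by rw [if_pos (hs hm)]
    have e2 : ∑ i ∈ s, co p i f • ee p i - f = ∑ i ∈ s, co p i (f - g) • ee p i - (f - g) := by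
      simp only [map_sub, sub_smul, Finset.sum_sub_distrib, e1]; abel
    rw [dist_eq_norm, e2]
    rw [dist_eq_norm, lt_div_iff₀ (by positivity)] at hq
    have := norm_sub_le (∑ i ∈ s, co p i (f - g) • ee p i) (f - g)
    have := bd s (f - g)
    linarith
  · have := (co p m).hasSum ha
    simp only [map_smul, co_e, smul_eq_mul, mul_ite, mul_one, mul_zero] at this
    exact ((hasSum_single m fun b hb => if_neg hb.symm).unique this ▸ (if_pos rfl).symm)

end Pool.Agent.H.Haar
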