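import Pool.Agent.H.MP_aa72b5_an.B

/-! Multiplication by `z` minus a Haar-diagonal operator is 1-summing. -/

namespace Pool.Agent.H.Haar

open MeasureTheory Set Filter
open scoped ENNReal Topology

lemma card_lev (k : ℕ) : (lev k).card = 2 ^ k := by
  simp only [lev, Nat.card_Ico, pow_succ]; omega

lemma pmean {P : ℝ} (hP : 1 < P) : ∃ ρ : ℝ, 0 ≤ ρ ∧ ρ < 1 ∧ ∀ (k : ℕ) (b : ℕ → ℂ),
    (((2 : ℝ) ^ k)⁻¹ * ∑ j ∈ lev k, ‖b j‖ ^ P) ^ P⁻¹ ≤ ρ ^ k * √(∑ j ∈ lev k, ‖b j‖ ^ 2) := by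
  have P0 : 0 < P := by linarith
  have sn : ∀ (k : ℕ) (b : ℕ → ℂ), 0 ≤ ∑ j ∈ lev k, ‖b j‖ ^ P :=
    fun k b => Finset.sum_nonneg fun _ _ => by positivity
  have s2 : ∀ (k : ℕ) (b : ℕ → ℂ), 0 ≤ ∑ j ∈ lev k, ‖b j‖ ^ 2 :=
    fun k b => Finset.sum_nonneg fun _ _ => by positivity
  rcases le_total 2 P with h | h
  · refine ⟨2⁻¹ ^ P⁻¹, by positivity, Real.rpow_lt_one (by norm_num) (by norm_num) (by positivity),
      fun k b => ?_⟩
    set σ := √(∑ j ∈ lev k, ‖b j‖ ^ 2)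
    have σ0 : 0 ≤ σ := Real.sqrt_nonneg _
    have : ∑ j ∈ lev k, ‖b j‖ ^ P ≤ σ ^ P := by
      calc _ ≤ ∑ j ∈ lev k, σ ^ (P - 2) * ‖b j‖ ^ 2 := Finset.sum_le_sum fun j hj => by
            rw [show ‖b j‖ ^ P = ‖b j‖ ^ (P - 2) * ‖b j‖ ^ 2 by
              rw [← Real.rpow_natCast _ 2, ← Real.rpow_add' (norm_nonneg _) (by simp [P0.ne'])]
              simp]
            refine mul_le_mul_of_nonneg_right (Real.rpow_le_rpow (norm_nonneg _) ?_ (by linarith))
              (by positivity)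
            exact Real.le_sqrt_of_sq_le (Finset.single_le_sum (f := fun j => ‖b j‖ ^ 2)
              (fun _ _ => by positivity) hj)
        _ = σ ^ (P - 2) * σ ^ 2 := by rw [← Finset.mul_sum, Real.sq_sqrt (s2 k b)]
        _ = σ ^ P := by
            rw [← Real.rpow_natCast _ 2, ← Real.rpow_add' σ0 (by simp [P0.ne'])]
            simp
    calc _ ≤ (((2 : ℝ) ^ k)⁻¹ * σ ^ P) ^ P⁻¹ := Real.rpow_le_rpow
          (mul_nonneg (by positivity) (sn k b)) (by gcongr) (by positivity)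
      _ = _ := by
          rw [Real.mul_rpow (by positivity) (by positivity), Real.rpow_rpow_inv σ0 P0.ne',
            ← inv_pow, Real.rpow_pow_comm (by norm_num)]
  · refine ⟨√2⁻¹, Real.sqrt_nonneg _, by rw [Real.sqrt_lt' one_pos]; norm_num, fun k b => ?_⟩
    have := Real.rpow_arith_mean_le_arith_mean_rpow (lev k) (fun _ => ((2 : ℝ) ^ k)⁻¹)
      (fun j => ‖b j‖ ^ P) (fun _ _ => by positivity) (by simp [card_lev])
      (fun _ _ => by positivity) (p := 2 / P) (by rw [le_div_iff₀ P0]; linarith)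
    rw [← Finset.mul_sum, ← Finset.mul_sum] at this
    have e : ∀ j, (‖b j‖ ^ P) ^ (2 / P) = ‖b j‖ ^ 2 := fun j => by
      rw [← Real.rpow_mul (norm_nonneg _), mul_div_cancel₀ _ P0.ne']; simp
    simp only [e] at this
    refine le_of_sq_le_sq ?_ (by positivity)
    rw [mul_pow, Real.sq_sqrt (s2 k b), ← pow_mul, mul_comm k 2, pow_mul,
      Real.sq_sqrt (by norm_num), inv_pow, ← Real.rpow_natCast _ 2,
      ← Real.rpow_mul (mul_nonneg (by positivity) (sn k b))]
    rwa [show P⁻¹ * ((2 : ℕ) : ℝ) = 2 / P by simp [div_eq_inv_mul]]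

variable [Fact ((0 : ℝ) < 1)] {p : ℝ≥0∞} [Fact (1 ≤ p)]

lemma mul_mem (f : LL p) : MemLp (fun t => fourier (1 : ℤ) t * f t) p volume :=
  (Lp.memLp f).of_le ((fourier (1 : ℤ)).continuous.aestronglyMeasurable.mul
    (Lp.aestronglyMeasurable f)) (Eventually.of_forall fun t => by simp [fourier_apply])

variable (p) in
noncomputable def MM : LL p →L[ℂ] LL p :=
  LinearMap.mkContinuous
    { toFun := fun f => (mul_mem f).toLp _
      map_add' := fun f g => by
        rw [← MemLp.toLp_add]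
        refine MemLp.toLp_congr _ _ ?_
        filter_upwards [Lp.coeFn_add f g] with t ht
        simp only [ht, Pi.add_apply, mul_add]
      map_smul' := fun c f => by
        rw [RingHom.id_apply, ← MemLp.toLp_const_smul]
        refine MemLp.toLp_congr _ _ ?_
        filter_upwards [Lp.coeFn_smul c f] with t ht
        simp only [ht, Pi.smul_apply, smul_eq_mul, mul_left_comm] }
    1 fun f => Lp.norm_le_mul_norm_of_ae_le_mul (by
      filter_upwards [(mul_mem f).coeFn_toLp] with t ht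
      exact (congrArg norm ht).le.trans (by simp [fourier_apply]))

lemma MM_ae (f : LL p) : MM p f =ᵐ[volume] fun t => fourier (1 : ℤ) t * f t :=
  (mul_mem f).coeFn_toLp

noncomputable def lam (m : ℕ) : ℂ := fourier (1 : ℤ) (((m : ℝ) / 2 ^ Nat.log 2 m : ℝ) : X)

lemma four_lip (x y : ℝ) : ‖fourier (1 : ℤ) (x : X) - fourier (1 : ℤ) (y : X)‖ ≤ 7 * |x - y| := by
  rw [fourier_coe_apply, fourier_coe_apply]
  have e : Complex.exp (2 * Real.pi * Complex.I * (1 : ℤ) * x / (1 : ℝ)) -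
      Complex.exp (2 * Real.pi * Complex.I * (1 : ℤ) * y / (1 : ℝ)) =
      Complex.exp (((2 * Real.pi * y : ℝ) : ℂ) * Complex.I) *
        (Complex.exp (Complex.I * ((2 * Real.pi * (x - y) : ℝ) : ℂ)) - 1) := by
    rw [mul_sub, ← Complex.exp_add, mul_one]
    congr 2 <;> push_cast <;> ring
  rw [e, norm_mul, Complex.norm_exp_ofReal_mul_I, one_mul]
  refine Real.norm_exp_I_mul_ofReal_sub_one_le.trans ?_
  rw [Real.norm_eq_abs, abs_mul, abs_of_pos (by positivity)]
  have := Real.pi_lt_d2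
  gcongr; linarith

variable (p) in
noncomputable def KK (k : ℕ) : LL p →L[ℂ] LL p :=
  ∑ m ∈ lev k, (co p m).smulRight (MM p (ee p m) - lam m • ee p m)

lemma KK_le (k : ℕ) (f : LL p) :
    ‖KK p k f‖ ≤ 7 * (2 ^ k)⁻¹ * ‖T p (k + 1) (sg fun m => co p m f)‖ := by
  have e : KK p k f = MM p (T p (k + 1) (sg fun m => co p m f)) -
      T p (k + 1) (sg fun m => co p m f * lam m) := by
    rw [← sum_lev_e, ← sum_lev_e, map_sum, ← Finset.sum_sub_distrib, KK,
      ContinuousLinearMap.sum_apply]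
    refine Finset.sum_congr rfl fun m _ => ?_
    rw [ContinuousLinearMap.smulRight_apply, smul_sub, map_smul, smul_smul]
  rw [e]
  refine Lp.norm_le_mul_norm_of_ae_le_mul ?_
  filter_upwards [Lp.coeFn_sub (MM p (T p (k + 1) (sg fun m => co p m f)))
    (T p (k + 1) (sg fun m => co p m f * lam m)), MM_ae (T p (k + 1) (sg fun m => co p m f)),
    T_ae (p := p) (k + 1) (sg fun m => co p m f),
    T_ae (p := p) (k + 1) (sg fun m => co p m f * lam m)] with t h1 h2 h3 h4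
  have e2 : sg (fun m => co p m f * lam m) (node (k + 1) t) =
      lam (node k t) * sg (fun m => co p m f) (node (k + 1) t) := by
    simp only [sg, node_half]
    split_ifs <;> ring
  rw [h1, Pi.sub_apply, h2, h3, h4, e2, ← sub_mul, norm_mul]
  refine mul_le_mul_of_nonneg_right ?_ (norm_nonneg _)
  obtain ⟨x, y, hx, hy, hxy⟩ := near_node k t
  rw [lam, (lev_log (node_mem k t)).2, ← hy, ← hx]
  exact (four_lip x y).trans (by gcongr)

lemma KK_sum (h1 : 1 < p) (h2 : p ≠ ∞) : ∃ ρ : ℝ, 0 ≤ ρ ∧ ρ < 1 ∧ ∀ (k n : ℕ) (x : Fin n → LL p)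
    (B : ℝ), (∀ φ : LL p →L[ℂ] ℂ, ‖φ‖ ≤ 1 → ∑ i, ‖φ (x i)‖ ≤ B) →
      ∑ i, ‖KK p k (x i)‖ ≤ 14 * ρ ^ k * B := by
  have h0 : p ≠ 0 := (zero_lt_one.trans h1).ne'
  have hP : 1 < p.toReal := by simpa using (ENNReal.toReal_lt_toReal ENNReal.one_ne_top h2).2 h1
  obtain ⟨ρ, r0, r1, hρ⟩ := pmean hP
  refine ⟨ρ, r0, r1, fun k n x B hB => ?_⟩
  let φ : Finset ℕ → LL p →L[ℂ] ℂ := fun S => phi p (k + 1) (sg fun j => if j ∈ S then 1 else -1)
  have one : ∀ f : LL p, ‖KK p k f‖ ≤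
      14 * ρ ^ k * ((2 ^ (lev k).card)⁻¹ * ∑ S ∈ (lev k).powerset, ‖φ S f‖) := by
    intro f
    have a := KK_le k f
    rw [norm_T h0 h2, sum_lev] at a
    have e : ((2 : ℝ) ^ (k + 1))⁻¹ * ∑ j ∈ lev k, (‖sg (fun m => co p m f) (2 * j)‖ ^ p.toReal +
        ‖sg (fun m => co p m f) (2 * j + 1)‖ ^ p.toReal) =
        (2 ^ k)⁻¹ * ∑ j ∈ lev k, ‖co p j f‖ ^ p.toReal := by
      rw [pow_succ, mul_inv, mul_assoc, Finset.mul_sum]
      congr 1
      refine Finset.sum_congr rfl fun j _ => ?_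
      simp only [sg, show 2 * j / 2 = j by omega, show (2 * j + 1) / 2 = j by omega]
      rw [if_pos (by omega), if_neg (by omega), norm_neg]; ring
    rw [e] at a
    have b := hρ k fun m => co p m f
    have c := khin (fun m => co p m f) (lev k)
    have d : ∀ S, ‖∑ j ∈ lev k, if j ∈ S then co p j f else -co p j f‖ = 2 ^ k * ‖φ S f‖ := by
      intro S
      simp only [φ]
      rw [← phi_sum, show (2 : ℝ) ^ k = ‖(2 : ℂ) ^ k‖ by simp, ← norm_mul, Finset.mul_sum]
      congr 1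
      refine Finset.sum_congr rfl fun j hj => ?_
      rw [co, if_neg (lev_log hj).1, (lev_log hj).2]
      split_ifs <;> simp
    simp only [d] at c
    rw [← Finset.mul_sum] at c
    have c' : √(∑ j ∈ lev k, ‖co p j f‖ ^ 2) ≤
        2 * 2 ^ k * ((2 ^ (lev k).card)⁻¹ * ∑ S ∈ (lev k).powerset, ‖φ S f‖) := by
      rw [mul_left_comm, ← div_eq_inv_mul, le_div_iff₀' (by positivity), mul_assoc]; exact c
    calc _ ≤ 7 * (2 ^ k)⁻¹ * (ρ ^ k * (2 * 2 ^ k *
          ((2 ^ (lev k).card)⁻¹ * ∑ S ∈ (lev k).powerset, ‖φ S f‖))) :=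
          a.trans (by gcongr; exact b.trans (by gcongr))
      _ = _ := by field_simp; ring
  refine (Finset.sum_le_sum fun i _ => one (x i)).trans ?_
  rw [← Finset.mul_sum, ← Finset.mul_sum, Finset.sum_comm]
  gcongr
  rw [← div_eq_inv_mul, div_le_iff₀' (by positivity)]
  refine (Finset.sum_le_card_nsmul _ _ B fun S _ => hB _ (phi_norm fun m _ => ?_)).trans (by simp)
  simp only [sg]
  split_ifs <;> simp

theorem main (h1 : 1 < p) (h2 : p ≠ ∞) : ∃ K : LL p →L[ℂ] LL p,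
    (∀ n, (MM p - K) (ee p n) = lam n • ee p n) ∧
    ∃ C : ℝ, ∀ (n : ℕ) (x : Fin n → LL p) (B : ℝ),
      (∀ φ : LL p →L[ℂ] ℂ, ‖φ‖ ≤ 1 → ∑ i, ‖φ (x i)‖ ≤ B) → ∑ i, ‖K (x i)‖ ≤ C * B := by
  obtain ⟨ρ, r0, r1, hρ⟩ := KK_sum h1 h2
  have nb : ∀ k, ‖KK p k‖ ≤ 14 * ρ ^ k := fun k =>
    ContinuousLinearMap.opNorm_le_bound _ (by positivity) fun f => by
      simpa using hρ k 1 (fun _ => f) ‖f‖ fun φ hφ => by
        simpa using (φ.le_opNorm f).trans (mul_le_of_le_one_left (norm_nonneg _) hφ)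
  have geo := (hasSum_geometric_of_lt_one r0 r1).mul_left 14
  have sm : Summable (KK p) := Summable.of_norm_bounded geo.summable nb
  have hs : ∀ f, HasSum (fun k => KK p k f) ((∑' k, KK p k) f) :=
    fun f => (ContinuousLinearMap.apply ℂ (LL p) f).hasSum sm.hasSum
  set v := MM p (ee p 0) - lam 0 • ee p 0 with hv
  refine ⟨(co p 0).smulRight v + ∑' k, KK p k, fun n => ?_, ‖v‖ + 14 * (1 - ρ)⁻¹,
    fun n x B hB => ?_⟩
  · have e : ∀ k, KK p k (ee p n) = if n ∈ lev k then MM p (ee p n) - lam n • ee p n else 0 := by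
      intro k
      simp [KK, ContinuousLinearMap.sum_apply, co_e, ite_smul]
    have := hs (ee p n)
    simp only [e] at this
    simp only [ContinuousLinearMap.sub_apply, ContinuousLinearMap.add_apply,
      ContinuousLinearMap.smulRight_apply, co_e]
    by_cases h : n = 0
    · subst h
      rw [this.unique (by
        simpa only [if_neg fun hh => (lev_log hh).1 rfl] using hasSum_zero), hv]
      simp
    · rw [this.unique (hasSum_single (Nat.log 2 n) fun k hk =>
        if_neg fun hh => hk (lev_log hh).2.symm), if_pos (log_lev h), if_neg (Ne.symm h)]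
      simp
  · have B0 : 0 ≤ B := by simpa using hB 0 (by simp)
    have a : ∑ i, ‖(co p 0).smulRight v (x i)‖ ≤ ‖v‖ * B := by
      simp only [ContinuousLinearMap.smulRight_apply, norm_smul]
      rw [← Finset.sum_mul, mul_comm]
      gcongr
      exact hB _ (by rw [co, if_pos rfl]; exact phi_norm fun _ _ => by simp)
    have b : ∑ i, ‖(∑' k, KK p k) (x i)‖ ≤ 14 * (1 - ρ)⁻¹ * B := by
      refine le_of_tendsto' (tendsto_finset_sum _ fun i _ => (hs (x i)).tendsto_sum_nat.norm)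
        fun N => ?_
      calc _ ≤ ∑ i, ∑ k ∈ Finset.range N, ‖KK p k (x i)‖ :=
            Finset.sum_le_sum fun i _ => norm_sum_le _ _
        _ ≤ ∑ k ∈ Finset.range N, 14 * ρ ^ k * B := by
            rw [Finset.sum_comm]; exact Finset.sum_le_sum fun k _ => hρ k n x B hB
        _ ≤ _ := sum_le_hasSum _ (fun k _ => by positivity) (geo.mul_right B)
    refine (Finset.sum_le_sum fun i _ => norm_add_le _ _).trans ?_
    rw [Finset.sum_add_distrib, add_mul]
    exact add_le_add a b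

end Pool.Agent.H.Haar
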